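import Pool.Agent.H777R4.DM.Stmts2
import Pool.Agent.H777R4.DM.SmallShear

/-! helper826: task SHEARN of project H777-DSN. -/

set_option autoImplicit false

namespace Pool.Agent.H826R3.DM

open Pool.Agent.H777R4.DM

attribute [local instance 100] LieRing.ofAssociativeRing

lemma lift_wdN {n : ℕ} {B : Type} [Ring B] [Algebra ℚ B] (φ : Fin n → B) (i : Fin n) :
    MonoidAlgebra.lift ℚ B (FreeMonoid (Fin n)) (FreeMonoid.lift φ) (wd [i]) = φ i := by
  have h : (wd [i] : Al (Fin n)) = MonoidAlgebra.of ℚ (FreeMonoid (Fin n)) (FreeMonoid.of i) := rfl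
  rw [h, MonoidAlgebra.lift_of, FreeMonoid.lift_eval_of]

lemma algHom_ext_wd {n : ℕ} {B : Type} [Ring B] [Algebra ℚ B] {F G : Al (Fin n) →ₐ[ℚ] B}
    (h : ∀ i, F (wd [i]) = G (wd [i])) : F = G := by
  apply MonoidAlgebra.algHom_ext'
  · apply FreeMonoid.hom_eq
    intro i
    exact h i
  · exact Subsingleton.elim _ _

/-- the linear substitution `X i ↦ ∑ j, M i j • X j` -/
noncomputable def tau {n : ℕ} (M : Fin n → Fin n → ℚ) : Al (Fin n) →ₐ[ℚ] Al (Fin n) :=
  MonoidAlgebra.lift ℚ (Al (Fin n)) (FreeMonoid (Fin n))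
    (FreeMonoid.lift (fun i => ∑ j, M i j • (wd [j] : Al (Fin n))))

lemma tau_wd {n : ℕ} (M : Fin n → Fin n → ℚ) (i : Fin n) :
    tau M (wd [i]) = ∑ j, M i j • (wd [j] : Al (Fin n)) := by
  rw [tau, lift_wdN]

lemma tau_comp {n : ℕ} (M N : Matrix (Fin n) (Fin n) ℚ) (h : N * M = 1) (P : Al (Fin n)) :
    tau M (tau N P) = P := by
  have key : (tau M).comp (tau N) = AlgHom.id ℚ (Al (Fin n)) := by
    apply algHom_ext_wd
    intro i
    rw [AlgHom.comp_apply, tau_wd, map_sum, AlgHom.id_apply]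
    have h1 : ∀ j : Fin n, tau M (N i j • (wd [j] : Al (Fin n)))
        = ∑ k, (N i j * M j k) • (wd [k] : Al (Fin n)) := by
      intro j
      rw [map_smul, tau_wd, Finset.smul_sum]
      refine Finset.sum_congr rfl fun k _ => ?_
      rw [smul_smul]
    rw [Finset.sum_congr rfl (fun j _ => h1 j), Finset.sum_comm]
    have h2 : ∀ k : Fin n, ∑ j, (N i j * M j k) • (wd [k] : Al (Fin n))
        = ((1 : Matrix (Fin n) (Fin n) ℚ) i k) • (wd [k] : Al (Fin n)) := by
      intro k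
      rw [← Finset.sum_smul, ← h, Matrix.mul_apply]
    rw [Finset.sum_congr rfl (fun k _ => h2 k)]
    rw [Finset.sum_eq_single i]
    · rw [Matrix.one_apply_eq, one_smul]
    · intro k _ hk
      rw [Matrix.one_apply_ne (Ne.symm hk), zero_smul]
    · intro hi
      exact absurd (Finset.mem_univ i) hi
  exact DFunLike.congr_fun key P

lemma s_sum_smul {n : ℕ} (f : Fin n → A) (c : Fin n → ℚ) :
    s (∑ j, c j • f j) = ∑ j, c j • s (f j) := by
  have hs : ∀ t : Finset (Fin n), s (∑ j ∈ t, c j • f j) = ∑ j ∈ t, c j • s (f j) := by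
    intro t
    induction t using Finset.induction_on with
    | empty =>
      rw [Finset.sum_empty, Finset.sum_empty]
      have := s_smul 0 (0 : A)
      rw [zero_smul, zero_smul] at this
      exact this
    | insert a t ha ih =>
      rw [Finset.sum_insert ha, Finset.sum_insert ha, s_add, s_smul, ih]
  exact hs Finset.univ

lemma PhiN_eq {n : ℕ} (f : Fin n → A) (P : Al (Fin n)) : PhiN f P =
    MonoidAlgebra.lift ℚ (Module.End ℚ A) (FreeMonoid (Fin n))
      (FreeMonoid.lift (fun i => s (f i))) P 1 := rfl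

lemma lift_tau {n : ℕ} {B : Type} [Ring B] [Algebra ℚ B] (φ : Fin n → B)
    (M : Fin n → Fin n → ℚ) (P : Al (Fin n)) :
    MonoidAlgebra.lift ℚ B (FreeMonoid (Fin n)) (FreeMonoid.lift (fun i => ∑ j, M i j • φ j)) P =
      MonoidAlgebra.lift ℚ B (FreeMonoid (Fin n)) (FreeMonoid.lift φ) (tau M P) := by
  have h : MonoidAlgebra.lift ℚ B (FreeMonoid (Fin n))
      (FreeMonoid.lift (fun i => ∑ j, M i j • φ j)) =
      (MonoidAlgebra.lift ℚ B (FreeMonoid (Fin n)) (FreeMonoid.lift φ)).comp (tau M) := by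
    apply algHom_ext_wd
    intro i
    rw [AlgHom.comp_apply, lift_wdN, tau_wd, map_sum]
    refine Finset.sum_congr rfl fun j _ => ?_
    rw [map_smul, lift_wdN]
  rw [h, AlgHom.comp_apply]

lemma PhiN_tau {n : ℕ} (f : Fin n → A) (M : Fin n → Fin n → ℚ) (P : Al (Fin n)) :
    PhiN (fun i => ∑ j, M i j • f j) P = PhiN f (tau M P) := by
  rw [PhiN_eq, PhiN_eq]
  have h : (fun i => s (∑ j, M i j • f j)) = (fun i => ∑ j, M i j • s (f j)) := by
    funext i
    exact s_sum_smul f (M i)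
  rw [h, lift_tau]

lemma exists_left_inv {n : ℕ} (M : Matrix (Fin n) (Fin n) ℚ)
    (hM : LinearIndependent ℚ (fun i => M i)) : ∃ N : Matrix (Fin n) (Fin n) ℚ, N * M = 1 := by
  have hu : IsUnit M := by
    rw [← Matrix.linearIndependent_rows_iff_isUnit]
    exact hM
  exact ⟨M⁻¹, Matrix.nonsing_inv_mul M ((Matrix.isUnit_iff_isUnit_det M).mp hu)⟩

theorem taskShearN : TaskShearN := by
  intro n f M hM hinj P Q hPQ
  obtain ⟨N, hN⟩ := exists_left_inv (Matrix.of M) hM
  have hP : tau M (tau N P) = P := tau_comp (Matrix.of M) N hN P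
  have hQ : tau M (tau N Q) = Q := tau_comp (Matrix.of M) N hN Q
  rw [← hP, ← hQ]
  congr 1
  apply hinj
  rw [PhiN_tau, PhiN_tau, hP, hQ]
  exact hPQ

end Pool.Agent.H826R3.DM
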